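import Mathlib

set_option autoImplicit false

namespace Pool.Agent.Helper976.KS

/-- `Φ(n, a)`: the number of permutations `π` of the index set `{0, …, k-1}` for which the `k` elements
`a (π i) + (i + 1)` of `ℤ/n` are pairwise distinct (this is `a_{π(1)} + 1, …, a_{π(k)} + k` with the
indices shifted to start at `0`). -/
noncomputable def Phi (n : ℕ) {k : ℕ} (a : Fin k → ZMod n) : ℕ :=
  Nat.card {π : Equiv.Perm (Fin k) //
    Function.Injective fun i : Fin k => a (π i) + (((i : ℕ) + 1 : ℕ) : ZMod n)}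

/-- `N(n, k)`, the minimum of `Φ(n, a)` over all `a ∈ (ℤ/n)^k`. -/
noncomputable def N (n k : ℕ) : ℕ := sInf (Set.range fun a : Fin k → ZMod n => Phi n a)

lemma N_le (n : ℕ) {k : ℕ} (a : Fin k → ZMod n) : N n k ≤ Phi n a := Nat.sInf_le ⟨a, rfl⟩

lemma exists_min (n k : ℕ) : ∃ a : Fin k → ZMod n, Phi n a = N n k :=
  Nat.sInf_mem (Set.range_nonempty _)

/-- extend a permutation of `Fin k` to one of `Fin (k+1)` with value `j` at the last place -/
def ext {k : ℕ} (j : Fin (k + 1)) (σ : Equiv.Perm (Fin k)) : Equiv.Perm (Fin (k + 1)) :=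
  (finSuccEquiv' (Fin.last k)).trans ((Equiv.optionCongr σ).trans (finSuccEquiv' j).symm)

lemma ext_last {k : ℕ} (j : Fin (k + 1)) (σ : Equiv.Perm (Fin k)) : ext j σ (Fin.last k) = j := by
  simp [ext]

lemma ext_castSucc {k : ℕ} (j : Fin (k + 1)) (σ : Equiv.Perm (Fin k)) (i : Fin k) :
    ext j σ i.castSucc = j.succAbove (σ i) := by
  have h : i.castSucc = (Fin.last k).succAbove i := by simp
  have h2 : finSuccEquiv' (Fin.last k) i.castSucc = some i := by
    rw [h, finSuccEquiv'_succAbove]
  simp only [ext, Equiv.trans_apply, h2, Equiv.optionCongr_apply, Option.map_some]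
  exact finSuccEquiv'_symm_some j (σ i)

lemma ext_inj {k : ℕ} (j : Fin (k + 1)) : Function.Injective (ext j) := by
  intro σ τ h
  apply Equiv.ext
  intro i
  have h1 := congrArg (fun π : Equiv.Perm (Fin (k + 1)) => π i.castSucc) h
  simp only [ext_castSucc] at h1
  exact Fin.succAbove_right_injective h1

/-- if no `a i` lies in `{a j + 1, …, a j + k}` then `Φ(a) ≥ Φ(a without a j)` -/
lemma Phi_del (n : ℕ) {k : ℕ} (a : Fin (k + 1) → ZMod n) (j : Fin (k + 1))
    (hj : ∀ i, ∀ d : ℕ, 1 ≤ d → d ≤ k → a i ≠ a j + (d : ZMod n)) :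
    Phi n (fun i : Fin k => a (j.succAbove i)) ≤ Phi n a := by
  unfold Phi
  have key : ∀ σ : Equiv.Perm (Fin k),
      (Function.Injective fun i : Fin k => a (j.succAbove (σ i)) + (((i : ℕ) + 1 : ℕ) : ZMod n)) →
      Function.Injective fun i : Fin (k + 1) => a (ext j σ i) + (((i : ℕ) + 1 : ℕ) : ZMod n) := by
    intro σ hσ
    have hcross : ∀ x : Fin k, a (ext j σ x.castSucc) + (((x.castSucc : Fin (k + 1)) : ℕ) + 1 : ℕ) ≠
        a (ext j σ (Fin.last k)) + (((Fin.last k : Fin (k + 1)) : ℕ) + 1 : ℕ) := by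
      intro x hx
      rw [ext_last] at hx
      refine hj (ext j σ x.castSucc) (k - (x : ℕ)) (by have := x.2; omega) (by omega) ?_
      have h2 : ((k - (x : ℕ) : ℕ) : ZMod n) = (k : ZMod n) - ((x : ℕ) : ZMod n) :=
        Nat.cast_sub x.2.le
      rw [h2]
      simp only [Fin.val_castSucc, Fin.val_last, Nat.cast_add, Nat.cast_one] at hx
      linear_combination hx
    intro x y hxy
    induction x using Fin.lastCases with
    | last =>
      induction y using Fin.lastCases with
      | last => rfl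
      | cast y => exact absurd hxy.symm (hcross y)
    | cast x =>
      induction y using Fin.lastCases with
      | last => exact absurd hxy (hcross x)
      | cast y =>
        congr 1
        apply hσ
        simpa only [ext_castSucc, Fin.val_castSucc] using hxy
  refine Nat.card_le_card_of_injective (fun σ => ⟨ext j σ.1, key σ.1 σ.2⟩) fun σ τ h => ?_
  simp only [Subtype.mk.injEq] at h
  exact Subtype.ext (ext_inj j h)

/-- a long gap exists when `n > k (k+1)` -/
lemma exists_gap {n k : ℕ} (h : k * (k + 1) < n) (a : Fin (k + 1) → ZMod n) :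
    ∃ j, ∀ i, ∀ d : ℕ, 1 ≤ d → d ≤ k → a i ≠ a j + (d : ZMod n) := by
  classical
  have : NeZero n := ⟨by omega⟩
  obtain ⟨p, hp⟩ : ∃ p : ZMod n, ∀ (x : Fin (k + 1)) (i : Fin k),
      a x + ((i : ℕ) : ZMod n) ≠ p := by
    by_contra hcon
    push Not at hcon
    have hsurj : Function.Surjective
        (fun q : Fin (k + 1) × Fin k => a q.1 + ((q.2 : ℕ) : ZMod n)) := by
      intro p
      obtain ⟨x, i, h⟩ := hcon p
      exact ⟨(x, i), h⟩
    have := Fintype.card_le_of_surjective _ hsurj
    rw [ZMod.card, Fintype.card_prod, Fintype.card_fin, Fintype.card_fin, mul_comm] at this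
    omega
  obtain ⟨j, -, hj⟩ := Finset.exists_min_image Finset.univ (fun i => (p - a i).val) ⟨0, Finset.mem_univ _⟩
  refine ⟨j, fun i d hd1 hd2 hi => ?_⟩
  have h1 : k ≤ (p - a j).val := by
    by_contra hlt
    push Not at hlt
    refine hp j ⟨(p - a j).val, hlt⟩ ?_
    simp only
    rw [ZMod.natCast_zmod_val]
    ring
  have h2 : ((p - a j).val - d : ℕ) = (p - a i).val := by
    have h3 : (p - a i) = (((p - a j).val - d : ℕ) : ZMod n) := by
      rw [Nat.cast_sub (hd2.trans h1), ZMod.natCast_zmod_val, hi]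
      ring
    rw [h3, ZMod.val_natCast, Nat.mod_eq_of_lt]
    have := ZMod.val_lt (p - a j)
    omega
  have h4 := hj i (Finset.mem_univ _)
  omega

theorem mono_large {n k : ℕ} (h : k * (k + 1) < n) : N n k ≤ N n (k + 1) := by
  obtain ⟨a, ha⟩ := exists_min n (k + 1)
  obtain ⟨j, hj⟩ := exists_gap h a
  rw [← ha]
  exact (N_le n _).trans (Phi_del n a j hj)

end Pool.Agent.Helper976.KS
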