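import Mathlib
import Pool.Agent.Helper976.KSMono

set_option autoImplicit false

namespace Pool.Agent.Helper976.KS

/-- the counting function with natural numbers -/
def cnt (n : ℕ) {k : ℕ} (w : Fin k → ℕ) : ℕ :=
  (Finset.univ.filter (fun π : Equiv.Perm (Fin k) =>
    Function.Injective fun i : Fin k => (w (π i) + ((i : ℕ) + 1)) % n)).card

lemma Phi_cast_eq (n : ℕ) {k : ℕ} (w : Fin k → ℕ) :
    Phi n (fun i => ((w i : ℕ) : ZMod n)) = cnt n w := by
  classical
  unfold Phi cnt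
  rw [Nat.card_eq_fintype_card, Fintype.card_subtype]
  congr 1
  ext π
  simp only [Finset.mem_filter, Finset.mem_univ, true_and]
  constructor
  · intro h i j hij
    apply h
    simp only at hij ⊢
    rw [← Nat.cast_add, ← Nat.cast_add]
    exact (ZMod.natCast_eq_natCast_iff' _ _ n).mpr hij
  · intro h i j hij
    apply h
    simp only at hij ⊢
    rw [← Nat.cast_add, ← Nat.cast_add] at hij
    exact (ZMod.natCast_eq_natCast_iff' _ _ n).mp hij

lemma Phi_translate (n : ℕ) {k : ℕ} (a : Fin k → ZMod n) (c : ZMod n) :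
    Phi n (fun x => a x - c) = Phi n a := by
  unfold Phi
  congr 1
  congr 1
  funext π
  apply propext
  constructor
  · intro h i j hij
    apply h
    simp only at hij ⊢
    linear_combination hij
  · intro h i j hij
    apply h
    simp only at hij ⊢
    linear_combination hij

lemma Phi_perm (n : ℕ) {k : ℕ} (a : Fin k → ZMod n) (τ : Equiv.Perm (Fin k)) :
    Phi n (fun x => a (τ x)) = Phi n a := by
  unfold Phi
  refine Nat.card_congr ((Equiv.mulLeft τ).subtypeEquiv fun π => ?_)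
  simp [Equiv.Perm.mul_apply]

/-- sorted representatives of vectors without a gap -/
lemma sorted_rep {n k : ℕ} (hkn : k < n) (a : Fin (k + 1) → ZMod n)
    (hgap : ∀ j, ∃ i, ∃ d : ℕ, 1 ≤ d ∧ d ≤ k ∧ a i = a j + (d : ZMod n)) :
    ∃ w : Fin (k + 1) → ℕ, w 0 = 0 ∧ (∀ i : Fin k, w i.castSucc ≤ w i.succ) ∧
      (∀ i : Fin k, w i.succ ≤ w i.castSucc + k) ∧
      w (Fin.last k) < n ∧ n ≤ w (Fin.last k) + k ∧ Phi n a = cnt n w := by
  have : NeZero n := ⟨by omega⟩
  set v : Fin (k + 1) → ℕ := fun i => (a i - a 0).val with hv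
  set τ := Tuple.sort v with hτ
  have hmono : Monotone (v ∘ τ) := Tuple.monotone_sort v
  have hlt : ∀ i, v i < n := fun i => ZMod.val_lt _
  have hcast : ∀ i, ((v i : ℕ) : ZMod n) = a i - a 0 := fun i => ZMod.natCast_zmod_val _
  have hw : ∀ i, ∃ j, v i = (v ∘ τ) j := fun i => ⟨τ.symm i, by simp⟩
  -- the successor
  have hsucc : ∀ i, ∃ j, ∃ d : ℕ, 1 ≤ d ∧ d ≤ k ∧
      ((v ∘ τ) j = (v ∘ τ) i + d ∨ (v ∘ τ) j + n = (v ∘ τ) i + d) := by
    intro i
    obtain ⟨i', d, hd1, hd2, h⟩ := hgap (τ i)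
    obtain ⟨j, hj⟩ := hw i'
    refine ⟨j, d, hd1, hd2, ?_⟩
    have h1 : ((v i' : ℕ) : ZMod n) = ((v (τ i) + d : ℕ) : ZMod n) := by
      rw [Nat.cast_add, hcast, hcast, h]
      ring
    have h2 := (ZMod.natCast_eq_natCast_iff' _ _ n).mp h1
    rw [Nat.mod_eq_of_lt (hlt i')] at h2
    rw [← hj]
    have h3 := Nat.mod_add_div (v (τ i) + d) n
    have h4 := hlt (τ i)
    have h5 := hlt i'
    simp only [Function.comp_apply]
    by_cases hc : v (τ i) + d < n
    · left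
      rw [Nat.mod_eq_of_lt hc] at h2
      exact h2
    · right
      push Not at hc
      rw [Nat.mod_eq_sub_mod hc, Nat.mod_eq_of_lt (by omega)] at h2
      omega
  refine ⟨v ∘ τ, ?_, fun i => hmono (Fin.castSucc_lt_succ).le, ?_, hlt _, ?_, ?_⟩
  · obtain ⟨j, hj⟩ := hw 0
    have h0 : v 0 = 0 := by simp [hv]
    have h1 : (v ∘ τ) 0 ≤ (v ∘ τ) j := hmono (Fin.zero_le j)
    omega
  · intro i
    obtain ⟨j, d, hd1, hd2, h⟩ := hsucc i.castSucc
    rcases lt_or_ge i.castSucc j with hij | hij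
    · have h1 : (v ∘ τ) i.succ ≤ (v ∘ τ) j := hmono (by
        rw [Fin.lt_def] at hij
        rw [Fin.le_def]
        simp only [Fin.val_castSucc, Fin.val_succ] at hij ⊢
        omega)
      have h2 : (v ∘ τ) j < n := hlt _
      have h3 : (v ∘ τ) i.castSucc < n := hlt _
      omega
    · have h1 : (v ∘ τ) j ≤ (v ∘ τ) i.castSucc := hmono hij
      have h2 : (v ∘ τ) i.succ < n := hlt _
      omega
  · obtain ⟨j, d, hd1, hd2, h⟩ := hsucc (Fin.last k)
    have h1 : (v ∘ τ) j ≤ (v ∘ τ) (Fin.last k) := hmono (Fin.le_last j)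
    omega
  · rw [← Phi_cast_eq, ← Phi_translate n a (a 0), ← Phi_perm n _ τ]
    congr 1
    funext i
    exact (hcast (τ i)).symm

/-- the finite check for three elements -/
lemma check3 : ∀ g1 g2 g3 : Fin 3, 4 ≤ (g1 : ℕ) + g2 + g3 →
    1 ≤ cnt ((g1 : ℕ) + g2 + g3) (![0, (g1 : ℕ), (g1 : ℕ) + g2] : Fin 3 → ℕ) := by
  decide +kernel

/-- the finite check for four elements -/
lemma check4 : ∀ g1 g2 g3 g4 : Fin 4, 5 ≤ (g1 : ℕ) + g2 + g3 + g4 →
    2 ≤ cnt ((g1 : ℕ) + g2 + g3 + g4) (![0, (g1 : ℕ), (g1 : ℕ) + g2, (g1 : ℕ) + g2 + g3] : Fin 4 → ℕ) := by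
  decide +kernel

lemma reduce {n k M : ℕ} (hkn : k < n) (hN : N n k ≤ M)
    (hchk : ∀ w : Fin (k + 1) → ℕ, w 0 = 0 → (∀ i : Fin k, w i.castSucc ≤ w i.succ) →
      (∀ i : Fin k, w i.succ ≤ w i.castSucc + k) → w (Fin.last k) < n →
      n ≤ w (Fin.last k) + k → M ≤ cnt n w) : N n k ≤ N n (k + 1) := by
  obtain ⟨a, ha⟩ := exists_min n (k + 1)
  rw [← ha]
  by_cases hgap : ∃ j, ∀ i, ∀ d : ℕ, 1 ≤ d → d ≤ k → a i ≠ a j + (d : ZMod n)
  · obtain ⟨j, hj⟩ := hgap
    exact (N_le n _).trans (Phi_del n a j hj)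
  · push Not at hgap
    obtain ⟨w, h0, h1, h2, h3, h4, h5⟩ := sorted_rep hkn a hgap
    rw [h5]
    exact hN.trans (hchk w h0 h1 h2 h3 h4)

theorem mono_two {n : ℕ} (h : 3 < n) : N n 2 ≤ N n 3 := by
  by_cases hl : 2 * (2 + 1) < n
  · exact mono_large hl
  refine reduce (M := 1) (by omega) ?_ ?_
  · refine (N_le n (fun i => ((![0, 1] : Fin 2 → ℕ) i : ZMod n))).trans ?_
    rw [Phi_cast_eq]
    interval_cases n <;> decide
  · intro w h0 h1 h2 h3 h4
    have a0 := h1 0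
    have a1 := h1 1
    have b0 := h2 0
    have b1 := h2 1
    simp only [Fin.castSucc_zero, Fin.succ_zero_eq_one, Fin.castSucc_one, Fin.succ_one_eq_two] at a0 a1 b0 b1
    change w 2 < n at h3
    change n ≤ w 2 + 2 at h4
    have hc := check3 ⟨w 1, by omega⟩ ⟨w 2 - w 1, by omega⟩ ⟨n - w 2, by omega⟩ (by simp only; omega)
    have e1 : w 1 + (w 2 - w 1) = w 2 := by omega
    simp only [e1] at hc
    have e2 : w 2 + (n - w 2) = n := by omega
    rw [e2] at hc
    have e3 : w = ![0, w 1, w 2] := by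
      funext i
      fin_cases i
      · exact h0
      · rfl
      · rfl
    rw [e3]
    exact hc

theorem mono_three {n : ℕ} (h : 4 < n) : N n 3 ≤ N n 4 := by
  by_cases hl : 3 * (3 + 1) < n
  · exact mono_large hl
  refine reduce (M := 2) (by omega) ?_ ?_
  · refine (N_le n (fun i => ((![0, 0, 1] : Fin 3 → ℕ) i : ZMod n))).trans ?_
    rw [Phi_cast_eq]
    interval_cases n <;> decide +kernel
  · intro w h0 h1 h2 h3 h4
    have a0 : w 0 ≤ w 1 := h1 0
    have a1 : w 1 ≤ w 2 := h1 1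
    have a2 : w 2 ≤ w 3 := h1 2
    have b0 : w 1 ≤ w 0 + 3 := h2 0
    have b1 : w 2 ≤ w 1 + 3 := h2 1
    have b2 : w 3 ≤ w 2 + 3 := h2 2
    change w 3 < n at h3
    change n ≤ w 3 + 3 at h4
    have hc := check4 ⟨w 1, by omega⟩ ⟨w 2 - w 1, by omega⟩ ⟨w 3 - w 2, by omega⟩ ⟨n - w 3, by omega⟩
      (by simp only; omega)
    have e1 : w 1 + (w 2 - w 1) = w 2 := by omega
    have e1' : w 2 + (w 3 - w 2) = w 3 := by omega
    simp only [e1, e1'] at hc
    have e2 : w 3 + (n - w 3) = n := by omega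
    rw [e2] at hc
    have e3 : w = ![0, w 1, w 2, w 3] := by
      funext i
      fin_cases i
      · exact h0
      · rfl
      · rfl
      · rfl
    rw [e3]
    exact hc

end Pool.Agent.Helper976.KS
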